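import Pool.Agent.Y357.TW.Eff

/-!
# The `G`-closure and the lamination closure of two phases differ for every `n ≥ 12`

A column that is decoupled from the others is added to both phases: on it both are the identity.
The effective tensor of a microstructure becomes the old one with the same decoupled column, and
every laminate of the new phases is a laminate of the old ones with the decoupled column (the
quadratic form of a laminate is positive, so the fields in the layers are unique). So a gap for `n`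
columns gives a gap for `n + 1` columns; the starting file has a gap for `n = 12`.

Definitions (in `Pool/Agent/TwoWell/GDefs.lean`): `Ix`, `Mt`, `Tens`, `cell`, `IsPot`, `grad`,
`IsMicro`, `tens`, `IsField`, `IsCurrent`, `IsEff`, `Gf`, `IsLayer`, `IsLam`, `GLf`.
-/

set_option autoImplicit false

open MeasureTheory Matrix GClosure

namespace Pool.Agent.Results.MP_393ee6_an.ColumnThreshold

/-- For some volume fraction `f ∈ [0, 1]` and some self-adjoint positive definite phases on real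
`2 × n` matrices some tensor of the `G`-closure is not in the lamination closure. -/
def Gap (n : ℕ) : Prop :=
  ∃ (f : ℝ) (L₁ L₂ : Tens n), 0 ≤ f ∧ f ≤ 1 ∧ L₁.PosDef ∧ L₂.PosDef ∧
    ∃ Ls : Tens n, Ls ∈ Gf f L₁ L₂ ∧ Ls ∉ GLf f L₁ L₂

theorem gap_mono {m n : ℕ} (hmn : m ≤ n) (h : Gap m) : Gap n := by
  induction n, hmn using Nat.le_induction with
  | base => exact h
  | succ k _ ih => exact Pool.Agent.Y357.TW.gap_succ ih

theorem not_gap_zero : ¬ Gap 0 := by
  rintro ⟨f, L₁, L₂, h0, h1, -, -, Ls, -, h3⟩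
  apply h3
  have e : IsLam L₁ L₂ (f * 1 + (1 - f) * 0) Ls := by
    refine IsLam.layer 1 0 f (fun _ => 1) L₁ L₂ Ls IsLam.one IsLam.two h0 h1 ?_ ?_
    · intro h
      exact one_ne_zero (congrFun h 0)
    · intro E0
      exact ⟨0, 0, 0, fun p => p.2.elim0, fun p => p.2.elim0, fun j => j.elim0,
        fun p => p.2.elim0⟩
  rw [mul_one, mul_zero, add_zero] at e
  exact subset_closure e

/-- There is a threshold `n₀`, `1 ≤ n₀ ≤ 12`: for every `n ≥ n₀`, in particular for every `n ≥ 12`,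
there are a volume fraction `f ∈ [0, 1]` and self-adjoint positive definite phases `L₁`, `L₂` on
real `2 × n` matrices such that some tensor of the `G`-closure `G_f(L₁, L₂)` is not in the
lamination closure `G^L_f(L₁, L₂)`; for `n < n₀` there are none. -/
theorem result : ∃ n₀ : ℕ, 1 ≤ n₀ ∧ n₀ ≤ 12 ∧
    (∀ n : ℕ, n₀ ≤ n → ∃ (f : ℝ) (L₁ L₂ : Tens n), 0 ≤ f ∧ f ≤ 1 ∧ L₁.PosDef ∧ L₂.PosDef ∧
      Gf f L₁ L₂ ≠ GLf f L₁ L₂ ∧ ∃ Ls : Tens n, Ls ∈ Gf f L₁ L₂ ∧ Ls ∉ GLf f L₁ L₂) ∧
    ∀ n : ℕ, n < n₀ → ∀ (f : ℝ) (L₁ L₂ : Tens n), 0 ≤ f → f ≤ 1 → L₁.PosDef → L₂.PosDef →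
      Gf f L₁ L₂ ⊆ GLf f L₁ L₂ := by
  classical
  have h12 : Gap 12 := two_phase_gap
  have hex : ∃ n, Gap n := ⟨12, h12⟩
  refine ⟨Nat.find hex, ?_, Nat.find_min' hex h12, ?_, ?_⟩
  · rw [Nat.one_le_iff_ne_zero]
    intro h
    have := Nat.find_spec hex
    rw [h] at this
    exact not_gap_zero this
  · intro n hn
    obtain ⟨f, L₁, L₂, h0, h1, p1, p2, Ls, h2, h3⟩ := gap_mono hn (Nat.find_spec hex)
    exact ⟨f, L₁, L₂, h0, h1, p1, p2, fun h => h3 (h ▸ h2), Ls, h2, h3⟩
  · intro n hn f L₁ L₂ h0 h1 p1 p2 Ls hLs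
    by_contra hcon
    exact Nat.find_min hex hn ⟨f, L₁, L₂, h0, h1, p1, p2, Ls, hLs, hcon⟩

end Pool.Agent.Results.MP_393ee6_an.ColumnThreshold
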